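import Pool.Agent.Helper65.CS.Goals2
import Pool.Agent.Helper78.LM.As1

/-!
# Project CS, packet CS-CNF: search for CNF formulas
-/

namespace Pool.Agent.Helper46.CS

open Pool.Agent.Helper81.CC hiding CNF
open Pool.Agent.Helper78.DT Pool.Agent.Helper51.ZP Pool.Agent.Helper65.CS

/-- The decision list of a CNF formula. -/
def toD (F : CNF) : DList :=
  (F.map fun C => ((C.map fun p => (p.1, !p.2)), false)) ++ [([], true)]

theorem toD_nil : toD [] = [([], true)] := rfl

theorem toD_cons (C : List (ℕ × Bool)) (F : CNF) :
    toD (C :: F) = ((C.map fun p => (p.1, !p.2)), false) :: toD F := rfl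

theorem val_toD {n : ℕ} (r : Fin n → Bool) : ∀ F : CNF,
    DList.val r (toD F) = true ↔ Satisfies r F
  | [] => by
      simp [toD_nil, DList.val, Satisfies]
  | C :: F => by
      have ih := val_toD r F
      rw [toD_cons, DList.val]
      by_cases h : ∀ p ∈ C, (if h : p.1 < n then r ⟨p.1, h⟩ else false) = !p.2
      · have h1 : ∀ p ∈ (C.map fun p => (p.1, !p.2)),
            (if h : p.1 < n then r ⟨p.1, h⟩ else false) = p.2 := by
          intro p hp
          obtain ⟨q, hq, rfl⟩ := List.mem_map.1 hp
          exact h q hq
        rw [if_pos h1]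
        constructor
        · intro hh
          exact absurd hh (by simp)
        · intro hh
          obtain ⟨p, hp, hp2⟩ := hh C (by simp)
          have := h p hp
          rw [hp2] at this
          cases hb : p.2 <;> simp [hb] at this
      · have h1 : ¬ ∀ p ∈ (C.map fun p => (p.1, !p.2)),
            (if h : p.1 < n then r ⟨p.1, h⟩ else false) = p.2 := by
          intro h2
          exact h fun p hp => h2 (p.1, !p.2) (List.mem_map.2 ⟨p, hp, rfl⟩)
        rw [if_neg h1, ih]
        constructor
        · intro hh D hD
          rcases List.mem_cons.1 hD with rfl | hD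
          · by_contra hc
            refine h fun p hp => ?_
            have hne : ¬ (if h : p.1 < n then r ⟨p.1, h⟩ else false) = p.2 := fun h' =>
              hc ⟨p, hp, h'⟩
            exact Bool.eq_not_of_ne hne
          · exact hh D hD
        · intro hh D hD
          exact hh D (List.mem_cons.2 (Or.inr hD))

theorem dsize_toD (n : ℕ) (F : CNF) : dsize (n, toD F) = csize (n, F) + 1 := by
  simp [dsize, csize, toD, Function.comp_def]
  omega

theorem pt_neg : PolyTime fun C : List (ℕ × Bool) => C.map fun p : ℕ × Bool => (p.1, !p.2) :=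
  PolyTime.list_map (f := fun (_ : List (ℕ × Bool)) (p : ℕ × Bool) => (p.1, !p.2)) (by fun_prop)
    (by fun_prop)

theorem pt_toD : PolyTime toD := by
  unfold toD
  refine PolyTime.append ?_ (PolyTime.const _)
  refine PolyTime.list_map (f := fun (_ : CNF) (C : List (ℕ × Bool)) =>
    ((C.map fun p : ℕ × Bool => (p.1, !p.2)), false)) (by fun_prop) ?_
  exact PolyTime.pair (PolyTime.comp pt_neg (by fun_prop)) (PolyTime.const _)

theorem cnf : CnfStmt := by
  intro hF c
  obtain ⟨f, hf, hf2⟩ := hF c
  have hfP : PolyTime f := Pool.Agent.Helper78.LM.PT_of_comp hf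
  refine ⟨fun z => f (z.1, toD z.2), ?_, ?_⟩
  · have : PolyTime fun z : ℕ × CNF => f (z.1, toD z.2) :=
      PolyTime.comp hfP (PolyTime.pair (PolyTime.fst PolyTime.id')
        (PolyTime.comp pt_toD (PolyTime.snd PolyTime.id')))
    exact this.scomp.computable
  · intro n F h
    have hcard : Nat.card {r : Fin n → Bool // DList.val r (toD F) = true} =
        Nat.card {r : Fin n → Bool // Satisfies r F} :=
      Nat.card_congr (Equiv.subtypeEquivRight fun r => val_toD r F)
    obtain ⟨r, hr, hfr⟩ := hf2 n (toD F) (by
      rw [hcard, dsize_toD]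
      refine h.trans (Nat.mul_le_mul_right _ (Nat.pow_le_pow_left ?_ _))
      exact Nat.add_le_add_right (Nat.log_mono_right (by omega)) 2)
    exact ⟨r, (val_toD r F).1 hr, hfr⟩

end Pool.Agent.Helper46.CS
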